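import Mathlib

set_option autoImplicit false
open Matrix
open scoped MatrixOrder

namespace Pool.Agent.Helper23.Codes

variable (p : ℕ) [hp : Fact p.Prime]

/-- index set: points and lines of the affine plane over `F_p` -/
abbrev Idx := (ZMod p × ZMod p) ⊕ (ZMod p × ZMod p)

/-- incidence of the point `(x, y)` with the line `Y = a X + b` -/
def inc (P L : ZMod p × ZMod p) : Prop := P.2 = L.1 * P.1 + L.2

instance (P L : ZMod p × ZMod p) : Decidable (inc p P L) := by unfold inc; infer_instance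

/-- the cross block -/
noncomputable def X : Matrix (ZMod p × ZMod p) (ZMod p × ZMod p) ℝ :=
  fun P L => if inc p P L then 0 else -((p : ℝ) ^ 2)⁻¹

/-- Gram matrix -/
noncomputable def Gm : Matrix (Idx p) (Idx p) ℝ := fromBlocks 1 (X p) (X p)ᵀ 1

theorem Gm_herm : (Gm p).IsHermitian := by
  unfold Gm
  refine IsHermitian.fromBlocks isHermitian_one ?_ isHermitian_one
  simp [conjTranspose_eq_transpose_of_trivial]

theorem abs_X_le (P L : ZMod p × ZMod p) : |X p P L| ≤ ((p : ℝ) ^ 2)⁻¹ := by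
  unfold X
  split_ifs
  · simp only [abs_zero]; positivity
  · rw [abs_neg, abs_of_nonneg (by positivity)]

theorem cross_le (f g : ZMod p × ZMod p → ℝ) :
    |∑ P, ∑ L, f P * X p P L * g L| ≤ ((∑ P, f P ^ 2) + ∑ L, g L ^ 2) / 2 := by
  have hp0 : (0 : ℝ) < p := by exact_mod_cast hp.out.pos
  have hcard : (Fintype.card (ZMod p × ZMod p) : ℝ) = (p : ℝ) ^ 2 := by
    rw [Fintype.card_prod, ZMod.card]; push_cast; ring
  calc |∑ P, ∑ L, f P * X p P L * g L| ≤ ∑ P, ∑ L, |f P * X p P L * g L| := by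
        refine (Finset.abs_sum_le_sum_abs _ _).trans ?_
        exact Finset.sum_le_sum fun P _ => Finset.abs_sum_le_sum_abs _ _
    _ ≤ ∑ P : ZMod p × ZMod p, ∑ L : ZMod p × ZMod p,
        ((p : ℝ) ^ 2)⁻¹ * ((f P ^ 2 + g L ^ 2) / 2) := by
        refine Finset.sum_le_sum fun P _ => Finset.sum_le_sum fun L _ => ?_
        rw [abs_mul, abs_mul]
        have h1 := abs_X_le p P L
        have h2 : |f P| * |g L| ≤ (f P ^ 2 + g L ^ 2) / 2 := by
          nlinarith [sq_nonneg (|f P| - |g L|), sq_abs (f P), sq_abs (g L)]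
        calc |f P| * |X p P L| * |g L| = |X p P L| * (|f P| * |g L|) := by ring
          _ ≤ ((p : ℝ) ^ 2)⁻¹ * ((f P ^ 2 + g L ^ 2) / 2) := by gcongr
    _ = ((∑ P, f P ^ 2) + ∑ L, g L ^ 2) / 2 := by
        have e1 : ∀ P : ZMod p × ZMod p, ∑ L : ZMod p × ZMod p,
            ((p : ℝ) ^ 2)⁻¹ * ((f P ^ 2 + g L ^ 2) / 2) =
            (f P ^ 2) / 2 + ((p : ℝ) ^ 2)⁻¹ * ((∑ L, g L ^ 2) / 2) := by
          intro P
          rw [← Finset.mul_sum, ← Finset.sum_div, Finset.sum_add_distrib, Finset.sum_const,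
            Finset.card_univ, nsmul_eq_mul, hcard]
          field_simp
        rw [Finset.sum_congr rfl fun P _ => e1 P, Finset.sum_add_distrib, Finset.sum_const,
          Finset.card_univ, nsmul_eq_mul, hcard, ← Finset.sum_div]
        field_simp

theorem Gm_posSemidef : (Gm p).PosSemidef := by
  refine PosSemidef.of_dotProduct_mulVec_nonneg (Gm_herm p) fun x => ?_
  have h1 : star x ⬝ᵥ (Gm p *ᵥ x) = (∑ P, x (Sum.inl P) ^ 2) + (∑ L, x (Sum.inr L) ^ 2) +
      2 * ∑ P, ∑ L, x (Sum.inl P) * X p P L * x (Sum.inr L) := by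
    simp only [dotProduct, mulVec, Gm, Fintype.sum_sum_type, fromBlocks_apply₁₁,
      fromBlocks_apply₁₂, fromBlocks_apply₂₁, fromBlocks_apply₂₂, star_trivial, one_apply,
      ite_mul, one_mul, zero_mul, transpose_apply,
      mul_add, Finset.sum_add_distrib, Finset.mul_sum]
    have e : ∑ L, ∑ P, x (Sum.inr L) * (X p P L * x (Sum.inl P)) =
        ∑ P, ∑ L, x (Sum.inl P) * (X p P L * x (Sum.inr L)) := by
      rw [Finset.sum_comm]
      refine Finset.sum_congr rfl fun P _ => Finset.sum_congr rfl fun L _ => by ring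
    rw [e]
    simp only [← Finset.mul_sum, mul_assoc, Finset.sum_ite_eq, Finset.mem_univ, if_true]
    have e1 : ∑ P : ZMod p × ZMod p, x (Sum.inl P) * x (Sum.inl P) = ∑ P, x (Sum.inl P) ^ 2 :=
      Finset.sum_congr rfl fun P _ => by ring
    have e2 : ∑ P : ZMod p × ZMod p, x (Sum.inr P) * x (Sum.inr P) = ∑ P, x (Sum.inr P) ^ 2 :=
      Finset.sum_congr rfl fun P _ => by ring
    rw [e1, e2]
    ring
  rw [h1]
  have h2 := cross_le p (fun P => x (Sum.inl P)) (fun L => x (Sum.inr L))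
  have h3 := (abs_le.mp h2).1
  linarith

theorem exists_vectors : ∃ u : Idx p → EuclideanSpace ℝ (Fin (Fintype.card (Idx p))),
    ∀ i j, inner ℝ (u i) (u j) = Gm p i j := by
  have h : (0 : Matrix (Idx p) (Idx p) ℝ) ≤ Gm p := nonneg_iff_posSemidef.mpr (Gm_posSemidef p)
  obtain ⟨B, hB⟩ := CStarAlgebra.nonneg_iff_eq_star_mul_self.mp h
  refine ⟨fun i => LinearIsometryEquiv.piLpCongrLeft 2 ℝ ℝ (Fintype.equivFin (Idx p))
    (WithLp.toLp 2 (fun k => B k i)), fun i j => ?_⟩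
  rw [LinearIsometryEquiv.inner_map_map, hB]
  simp [PiLp.inner_apply, star_eq_conjTranspose, mul_apply, mul_comm]

/-- the code word of the flag `((x, a x + b), (a, b))` -/
noncomputable def word {D : ℕ} (u : Idx p → EuclideanSpace ℝ (Fin D)) (t : ZMod p × ZMod p × ZMod p) :
    EuclideanSpace ℝ (Fin D) :=
  (Real.sqrt 2)⁻¹ • (u (Sum.inl (t.1, t.2.1 * t.1 + t.2.2)) + u (Sum.inr (t.2.1, t.2.2)))

theorem inner_word {D : ℕ} {u : Idx p → EuclideanSpace ℝ (Fin D)}
    (hu : ∀ i j, inner ℝ (u i) (u j) = Gm p i j) (s t : ZMod p × ZMod p × ZMod p) :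
    inner ℝ (word p u s) (word p u t) =
      ((if (s.1, s.2.1 * s.1 + s.2.2) = (t.1, t.2.1 * t.1 + t.2.2) then 1 else 0) +
        X p (s.1, s.2.1 * s.1 + s.2.2) t.2 + X p (t.1, t.2.1 * t.1 + t.2.2) s.2 +
        (if s.2 = t.2 then 1 else 0)) / 2 := by
  have h2 : (Real.sqrt 2)⁻¹ * (Real.sqrt 2)⁻¹ = (1 / 2 : ℝ) := by
    rw [← mul_inv, Real.mul_self_sqrt (by norm_num)]; norm_num
  unfold word
  rw [inner_smul_left, inner_smul_right, inner_add_left, inner_add_right, inner_add_right, hu, hu,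
    hu, hu]
  simp only [Gm, fromBlocks_apply₁₁, fromBlocks_apply₁₂, fromBlocks_apply₂₁, fromBlocks_apply₂₂,
    transpose_apply, one_apply, conj_trivial]
  rw [← mul_assoc, h2]
  ring

end Pool.Agent.Helper23.Codes
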