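import Mathlib
import Pool.Agent.Helper23.Codes.Flags

/-! Not a hand-in: the conclusion is already known (Balla-Draexler-Keevash-Sudakov, Theorem 1.5). -/

set_option autoImplicit false

namespace Pool.Agent.Helper23.Codes.NotLinear

open Pool.Agent.Helper23.Codes in
/-- For every prime `p` there are `p ^ 3` unit vectors in dimension `2 p ^ 2` whose pairwise inner
products are negative or equal to `1 / 2`. -/
theorem big_code (p : ℕ) [hp : Fact p.Prime] :
    ∃ S : Finset (EuclideanSpace ℝ (Fin (Fintype.card (Idx p)))), S.card = p ^ 3 ∧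
      (∀ x ∈ S, ‖x‖ = 1) ∧
      (∀ x ∈ S, ∀ y ∈ S, x ≠ y → (inner ℝ x y < 0 ∨ inner ℝ x y = 1 / 2)) := by
  classical
  have hp0 : (0 : ℝ) < p := by exact_mod_cast hp.out.pos
  have hpos : (0 : ℝ) < ((p : ℝ) ^ 2)⁻¹ := by positivity
  obtain ⟨u, hu⟩ := exists_vectors p
  have hXself : ∀ t : ZMod p × ZMod p × ZMod p, X p (t.1, t.2.1 * t.1 + t.2.2) t.2 = 0 := by
    intro t
    unfold X
    rw [if_pos]
    simp [inc]
  have hX0 : ∀ P L, X p P L = 0 ∨ X p P L < 0 := by
    intro P L
    unfold X
    split_ifs
    · exact Or.inl rfl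
    · right; linarith
  have hnorm : ∀ t, ‖word p u t‖ = 1 := by
    intro t
    have h := inner_word p hu t t
    rw [if_pos rfl, if_pos rfl, hXself] at h
    rw [real_inner_self_eq_norm_sq] at h
    have h1 : ‖word p u t‖ ^ 2 = 1 := by rw [h]; norm_num
    nlinarith [norm_nonneg (word p u t)]
  have hpair : ∀ s t, s ≠ t → (inner ℝ (word p u s) (word p u t) < 0 ∨
      inner ℝ (word p u s) (word p u t) = 1 / 2) := by
    intro s t hst
    rw [inner_word p hu s t]
    by_cases hL : s.2 = t.2
    · -- common line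
      right
      have hP : (s.1, s.2.1 * s.1 + s.2.2) ≠ (t.1, t.2.1 * t.1 + t.2.2) := by
        intro h
        have h1 : s.1 = t.1 := (Prod.mk.inj h).1
        exact hst (Prod.ext h1 hL)
      rw [if_neg hP, if_pos hL]
      have h1 : X p (s.1, s.2.1 * s.1 + s.2.2) t.2 = 0 := by rw [← hL]; exact hXself s
      have h2 : X p (t.1, t.2.1 * t.1 + t.2.2) s.2 = 0 := by rw [hL]; exact hXself t
      rw [h1, h2]
      norm_num
    · by_cases hP : (s.1, s.2.1 * s.1 + s.2.2) = (t.1, t.2.1 * t.1 + t.2.2)
      · right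
        rw [if_pos hP, if_neg hL]
        have h1 : X p (s.1, s.2.1 * s.1 + s.2.2) t.2 = 0 := by rw [hP]; exact hXself t
        have h2 : X p (t.1, t.2.1 * t.1 + t.2.2) s.2 = 0 := by rw [← hP]; exact hXself s
        rw [h1, h2]
        norm_num
      · left
        rw [if_neg hP, if_neg hL]
        have h1 := hX0 (s.1, s.2.1 * s.1 + s.2.2) t.2
        have h2 := hX0 (t.1, t.2.1 * t.1 + t.2.2) s.2
        have h3 : ¬ (X p (s.1, s.2.1 * s.1 + s.2.2) t.2 = 0 ∧
            X p (t.1, t.2.1 * t.1 + t.2.2) s.2 = 0) := by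
          rintro ⟨ha, hb⟩
          have ha' : inc p (s.1, s.2.1 * s.1 + s.2.2) t.2 := by
            by_contra hn
            rw [X, if_neg hn] at ha
            linarith
          have hb' : inc p (t.1, t.2.1 * t.1 + t.2.2) s.2 := by
            by_contra hn
            rw [X, if_neg hn] at hb
            linarith
          simp only [inc] at ha' hb'
          -- two points on two lines
          have hmul : (s.2.1 - t.2.1) * (s.1 - t.1) = 0 := by
            linear_combination ha' + hb'
          rcases mul_eq_zero.mp hmul with h | h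
          · have e1 : s.2.1 = t.2.1 := sub_eq_zero.mp h
            apply hL
            refine Prod.ext e1 ?_
            rw [e1] at ha'
            exact add_left_cancel ha'
          · have e1 : s.1 = t.1 := sub_eq_zero.mp h
            apply hP
            refine Prod.ext e1 ?_
            show s.2.1 * s.1 + s.2.2 = t.2.1 * t.1 + t.2.2
            rw [ha', e1]
        rcases h1 with h1 | h1 <;> rcases h2 with h2 | h2
        · exact absurd ⟨h1, h2⟩ h3
        · rw [h1]; linarith
        · rw [h2]; linarith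
        · linarith
  have hinj : Function.Injective (word p u) := by
    intro s t hst
    by_contra hne
    have h1 := hpair s t hne
    rw [hst, real_inner_self_eq_norm_sq, hnorm] at h1
    norm_num at h1
  refine ⟨Finset.univ.image (word p u), ?_, ?_, ?_⟩
  · rw [Finset.card_image_of_injective _ hinj, Finset.card_univ, Fintype.card_prod,
      Fintype.card_prod, ZMod.card]
    ring
  · intro x hx
    obtain ⟨t, _, rfl⟩ := Finset.mem_image.mp hx
    exact hnorm t
  · intro x hx y hy hxy
    obtain ⟨s, _, rfl⟩ := Finset.mem_image.mp hx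
    obtain ⟨t, _, rfl⟩ := Finset.mem_image.mp hy
    exact hpair s t (fun h => hxy (by rw [h]))

/-- The negation of the preceding statement: For every real α there is a constant C such that, in every dimension d, any finite set of unit vectors whose distinct pairs have inner product negative or equal to α has at most C·d elements. -/
theorem result :
    ¬ (∀ α : ℝ, ∃ C : ℝ, ∀ d : ℕ, ∀ S : Finset (EuclideanSpace ℝ (Fin d)),
      (∀ x ∈ S, ‖x‖ = 1) →
      (∀ x ∈ S, ∀ y ∈ S, x ≠ y → (inner ℝ x y < 0 ∨ inner ℝ x y = α)) →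
      (S.card : ℝ) ≤ C * (d : ℝ)) := by
  intro h
  obtain ⟨C, hC⟩ := h (1 / 2)
  obtain ⟨p, hp1, hp2⟩ := Nat.exists_infinite_primes (⌈2 * |C|⌉₊ + 1)
  haveI : Fact p.Prime := ⟨hp2⟩
  obtain ⟨S, hS1, hS2, hS3⟩ := big_code p
  have h1 := hC _ S hS2 hS3
  have hcard : Fintype.card (Pool.Agent.Helper23.Codes.Idx p) = 2 * p ^ 2 := by
    rw [Fintype.card_sum, Fintype.card_prod, ZMod.card]; ring
  rw [hS1, hcard] at h1
  push_cast at h1
  have hp0 : (0 : ℝ) < p := by exact_mod_cast hp2.pos
  have hpC : 2 * |C| < p := by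
    have h2 := Nat.le_ceil (2 * |C|)
    have h3 : ((⌈2 * |C|⌉₊ + 1 : ℕ) : ℝ) ≤ p := by exact_mod_cast hp1
    push_cast at h3
    linarith
  have h4 : C ≤ |C| := le_abs_self C
  have h5 : (0 : ℝ) < (p : ℝ) ^ 2 := by positivity
  nlinarith

end Pool.Agent.Helper23.Codes.NotLinear
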